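import Pool.Agent.X194.TP.Code

/-!
# A partially rigid, non-rigid Toeplitz system (MP_6420b1_an, Q1: yes)

There is a Toeplitz sequence `x` over a two-letter alphabet whose orbit closure carries an ergodic
shift-invariant Borel probability measure that is partially rigid but not rigid.

Construction: a Thue-Morse type `ZMod 2`-extension of the dyadic odometer; the binary digits are
grouped in blocks of growing length, and a point whose 2-adic integer has an all-zero block is given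
the digit-sum parity below the first zero block as its symbol instead of the fibre coordinate.
-/

open MeasureTheory Filter Topology Set
open scoped ENNReal

namespace Pool.Agent.Results.MP_6420b1_an.ToeplitzPR

/-- The `k`-th power of the left shift on two-sided sequences. -/
def shiftBy (k : ℤ) (x : ℤ → Bool) : ℤ → Bool := fun n => x (n + k)

/-- Toeplitz sequence: not periodic, and every position is periodic. -/
def IsToeplitz (x : ℤ → Bool) : Prop :=
  (¬ ∃ p : ℤ, 1 ≤ p ∧ ∀ n, x (n + p) = x n) ∧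
    ∀ n : ℤ, ∃ p : ℤ, 1 ≤ p ∧ ∀ k : ℤ, x (n + k * p) = x n

/-- The orbit closure of a sequence. -/
def orbitClosure (x : ℤ → Bool) : Set (ℤ → Bool) :=
  closure (Set.range fun k : ℤ => shiftBy k x)

/-- `(X, σ, μ)` is rigid. -/
def Rigid (X : Set (ℤ → Bool)) (μ : Measure (ℤ → Bool)) : Prop :=
  ∃ n : ℕ → ℕ, Tendsto n atTop atTop ∧ ∀ B : Set (ℤ → Bool), MeasurableSet B → B ⊆ X →
    Tendsto (fun k => μ (shiftBy (n k) '' B ∩ B)) atTop (𝓝 (μ B))

/-- `(X, σ, μ)` is partially rigid. -/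
def PartiallyRigid (X : Set (ℤ → Bool)) (μ : Measure (ℤ → Bool)) : Prop :=
  ∃ δ : ℝ, 0 < δ ∧ ∃ n : ℕ → ℕ, Tendsto n atTop atTop ∧
    ∀ B : Set (ℤ → Bool), MeasurableSet B → B ⊆ X →
      ENNReal.ofReal δ * μ B ≤ liminf (fun k => μ (shiftBy (n k) '' B ∩ B)) atTop

open Pool.Agent.X194.TP

/-- The factor map. -/
noncomputable def Phi (ω : Om) : ℤ → Bool := fun n => decide (F ((T ^ n) ω) = 1)

theorem measurable_Phi : Measurable Phi := by
  apply measurable_pi_lambda
  intro n
  have h : Measurable (fun x : ZMod 2 => decide (x = 1)) := Measurable.of_discrete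
  exact h.comp (measurable_F.comp (measurable_T_zpow n))

theorem Phi_T (k : ℤ) (ω : Om) : Phi ((T ^ k) ω) = shiftBy k (Phi ω) := by
  funext n
  simp only [Phi, shiftBy]
  rw [← Equiv.Perm.mul_apply, ← zpow_add]

theorem Phi_T_one (ω : Om) : Phi (T ω) = shiftBy 1 (Phi ω) := by
  have := Phi_T 1 ω
  rwa [zpow_one] at this

theorem shiftBy_shiftBy (k l : ℤ) (x : ℤ → Bool) : shiftBy k (shiftBy l x) = shiftBy (k + l) x := by
  funext n; simp only [shiftBy]; rw [add_assoc]

theorem shiftBy_zero (x : ℤ → Bool) : shiftBy 0 x = x := by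
  funext n; simp [shiftBy]

theorem shiftBy_injective (k : ℤ) : Function.Injective (shiftBy k) := by
  intro x y h
  have := congrArg (shiftBy (-k)) h
  rwa [shiftBy_shiftBy, shiftBy_shiftBy, neg_add_cancel, shiftBy_zero, shiftBy_zero] at this

theorem continuous_shiftBy (k : ℤ) : Continuous (shiftBy k) :=
  continuous_pi fun n => continuous_apply (n + k)

theorem measurable_shiftBy (k : ℤ) : Measurable (shiftBy k) :=
  measurable_pi_lambda _ fun n => measurable_pi_apply (n + k)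

theorem image_shiftBy (k : ℤ) (B : Set (ℤ → Bool)) : shiftBy k '' B = shiftBy (-k) ⁻¹' B := by
  ext y
  constructor
  · rintro ⟨x, hx, rfl⟩
    rw [Set.mem_preimage, shiftBy_shiftBy, neg_add_cancel, shiftBy_zero]; exact hx
  · intro h
    refine ⟨shiftBy (-k) y, h, ?_⟩
    rw [shiftBy_shiftBy, add_neg_cancel, shiftBy_zero]

/-- The measure. -/
noncomputable def mu : Measure (ℤ → Bool) := m.map Phi

theorem mp_Phi : MeasurePreserving Phi m mu := ⟨measurable_Phi, rfl⟩

instance : IsProbabilityMeasure mu := Measure.isProbabilityMeasure_map measurable_Phi.aemeasurable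

theorem ergodic_mu : Ergodic (shiftBy 1) mu :=
  mp_Phi.ergodic_of_ergodic_semiconj ergodic_T (measurable_shiftBy 1) (fun ω => Phi_T_one ω)

theorem mu_inter {B : Set (ℤ → Bool)} (hB : MeasurableSet B) (n : ℕ) :
    mu (shiftBy n '' B ∩ B) = m (Phi ⁻¹' B ∩ ((T ^ n : Equiv.Perm Om)) ⁻¹' (Phi ⁻¹' B)) := by
  have h1 : MeasurableSet (shiftBy n '' B ∩ B) := by
    rw [image_shiftBy]; exact (measurable_shiftBy _ hB).inter hB
  rw [← mp_Phi.measure_preimage h1.nullMeasurableSet,
    ← (mp_T_pow n).measure_preimage (measurable_Phi h1).nullMeasurableSet]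
  congr 1
  ext ω
  simp only [Set.mem_preimage, Set.mem_inter_iff]
  have h2 : Phi ((T ^ n) ω) = shiftBy n (Phi ω) := by
    have := Phi_T n ω
    rwa [zpow_natCast] at this
  rw [h2, image_shiftBy, Set.mem_preimage, shiftBy_shiftBy, neg_add_cancel, shiftBy_zero]

theorem partiallyRigid_mu (X : Set (ℤ → Bool)) : PartiallyRigid X mu := by
  refine ⟨1 / 4, by norm_num, fun k => 2 ^ k, ?_, fun B hB _ => ?_⟩
  · exact tendsto_pow_atTop_atTop_of_one_lt (by norm_num)
  have h4 : ENNReal.ofReal (1 / 4) = 4⁻¹ := by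
    rw [ENNReal.ofReal_div_of_pos (by norm_num)]; simp
  rw [h4]
  have hfun : (fun k : ℕ => mu (shiftBy ((2 ^ k : ℕ) : ℤ) '' B ∩ B)) =
      fun k : ℕ => m (Phi ⁻¹' B ∩ ((T ^ (2 ^ k) : Equiv.Perm Om)) ⁻¹' (Phi ⁻¹' B)) := by
    funext k; exact mu_inter hB (2 ^ k)
  rw [hfun, ← mp_Phi.measure_preimage hB.nullMeasurableSet]
  set A := Phi ⁻¹' B with hA
  have hAm : MeasurableSet A := measurable_Phi hB
  refine ENNReal.le_of_forall_pos_le_add fun ε hε _ => ?_
  have hε' : (0 : ℝ≥0∞) < ε / 9 := by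
    apply ENNReal.div_pos
    · exact_mod_cast hε.ne'
    · norm_num
  have hε'' : (ε : ℝ≥0∞) / 9 ≠ ⊤ := ENNReal.div_ne_top ENNReal.coe_ne_top (by norm_num)
  have h9 : 9 * ((ε : ℝ≥0∞) / 9) = ε := ENNReal.mul_div_cancel (by norm_num) (by norm_num)
  rw [← tsub_le_iff_right]
  refine le_liminf_of_le (by isBoundedDefault) ?_
  filter_upwards [pr_T hAm hε' hε''] with K hK
  rw [h9] at hK
  rw [tsub_le_iff_right]
  calc 4⁻¹ * m A ≤ 4⁻¹ * (4 * m (A ∩ ((T ^ (2 ^ K) : Equiv.Perm Om)) ⁻¹' A) + ε) := by gcongr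
    _ = (4⁻¹ * 4) * m (A ∩ ((T ^ (2 ^ K) : Equiv.Perm Om)) ⁻¹' A) + 4⁻¹ * ε := by ring
    _ ≤ m (A ∩ ((T ^ (2 ^ K) : Equiv.Perm Om)) ⁻¹' A) + ε := by
        rw [ENNReal.inv_mul_cancel (by norm_num) (by norm_num), one_mul]
        gcongr
        calc (4⁻¹ : ℝ≥0∞) * ε ≤ 1 * ε := by gcongr; exact ENNReal.inv_le_one.mpr (by norm_num)
          _ = ε := one_mul _

theorem mu_ne {n : ℕ} (hn : 1 ≤ n) : 8⁻¹ ≤ mu {y | y 0 ≠ y n} + 16⁻¹ := by
  have hm : MeasurableSet {y : ℤ → Bool | y 0 ≠ y n} := by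
    have : {y : ℤ → Bool | y 0 ≠ y n} = (fun y => (y 0, y n)) ⁻¹' {p | p.1 ≠ p.2} := rfl
    rw [this]
    exact ((measurable_pi_apply 0).prodMk (measurable_pi_apply _)) (MeasurableSet.of_discrete)
  rw [← mp_Phi.measure_preimage hm.nullMeasurableSet]
  have : Phi ⁻¹' {y | y 0 ≠ y n} = {ω | F ω ≠ F ((T ^ n) ω)} := by
    ext ω
    simp only [Set.mem_preimage, Set.mem_ofPred_eq, Phi, zpow_zero, Equiv.Perm.coe_one, id,
      zpow_natCast]
    rcases z2_cases (F ω) with h | h <;> rcases z2_cases (F ((T ^ n) ω)) with h' | h' <;>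
      simp [h, h']
  rw [this]
  exact F_ne hn

theorem not_rigid {X : Set (ℤ → Bool)} (hX : MeasurableSet X) (hX1 : mu Xᶜ = 0) :
    ¬ Rigid X mu := by
  rintro ⟨n, hn, h⟩
  have hm0 : ∀ b : Bool, MeasurableSet {y : ℤ → Bool | y 0 = b} := by
    intro b
    have h1 : Measurable (fun y : ℤ → Bool => y 0) := measurable_pi_apply 0
    exact h1 (MeasurableSet.of_discrete (s := ({b} : Set Bool)))
  have hm : ∀ b : Bool, MeasurableSet (X ∩ {y : ℤ → Bool | y 0 = b}) := fun b =>
    hX.inter (hm0 b)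
  have h1 := h _ (hm true) Set.inter_subset_left
  have h0 := h _ (hm false) Set.inter_subset_left
  have hsum := (h1.add h0).add_const (8⁻¹ : ℝ≥0∞)
  have htot : mu (X ∩ {y | y 0 = true}) + mu (X ∩ {y | y 0 = false}) = 1 := by
    have h2 : mu (X ∩ {y | y 0 = true}) + mu (X ∩ {y | y 0 = false}) = mu X := by
      have h3 : X ∩ {y : ℤ → Bool | y 0 = false} = X \ {y | y 0 = true} := by
        ext y; simp
      rw [h3]
      exact measure_inter_add_sdiff X (hm0 true)
    rw [h2]
    exact (prob_compl_eq_zero_iff hX).mp hX1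
  rw [htot] at hsum
  have hle : (1 : ℝ≥0∞) + 8⁻¹ ≤ 1 + 16⁻¹ := by
    refine le_of_tendsto hsum ?_
    filter_upwards [hn.eventually_ge_atTop 1] with k hk
    have h5 := mu_ne hk
    have hsh : mu {y | y 0 ≠ y (n k)} = mu {y | y (-(n k : ℤ)) ≠ y 0} := by
      have hmm : MeasurableSet {y : ℤ → Bool | y (-(n k : ℤ)) ≠ y 0} := by
        have : {y : ℤ → Bool | y (-(n k : ℤ)) ≠ y 0} =
          (fun y => (y (-(n k : ℤ)), y 0)) ⁻¹' {p | p.1 ≠ p.2} := rfl
        rw [this]
        exact ((measurable_pi_apply _).prodMk (measurable_pi_apply _)) (MeasurableSet.of_discrete)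
      rw [← mp_Phi.measure_preimage hmm.nullMeasurableSet,
        ← (mp_T_pow (n k)).measure_preimage (measurable_Phi hmm).nullMeasurableSet]
      have hmm' : MeasurableSet {y : ℤ → Bool | y 0 ≠ y (n k)} := by
        have : {y : ℤ → Bool | y 0 ≠ y (n k)} =
          (fun y => (y 0, y (n k))) ⁻¹' {p | p.1 ≠ p.2} := rfl
        rw [this]
        exact ((measurable_pi_apply _).prodMk (measurable_pi_apply _)) (MeasurableSet.of_discrete)
      rw [← mp_Phi.measure_preimage hmm'.nullMeasurableSet]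
      congr 1
      ext ω
      simp only [Set.mem_preimage, Set.mem_ofPred_eq]
      have h2 : Phi ((T ^ (n k)) ω) = shiftBy (n k) (Phi ω) := by
        have := Phi_T (n k) ω
        rwa [zpow_natCast] at this
      rw [h2]
      simp [shiftBy]
    have h6 : mu (shiftBy (n k) '' (X ∩ {y | y 0 = true}) ∩ (X ∩ {y | y 0 = true})) +
        mu (shiftBy (n k) '' (X ∩ {y | y 0 = false}) ∩ (X ∩ {y | y 0 = false})) +
        mu {y | y (-(n k : ℤ)) ≠ y 0} ≤ 1 := by
      have hE : ∀ b c : Bool, MeasurableSet {y : ℤ → Bool | y (-(n k : ℤ)) = b ∧ y 0 = c} := by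
        intro b c
        have : {y : ℤ → Bool | y (-(n k : ℤ)) = b ∧ y 0 = c} =
          (fun y => (y (-(n k : ℤ)), y 0)) ⁻¹' {p | p.1 = b ∧ p.2 = c} := rfl
        rw [this]
        exact ((measurable_pi_apply _).prodMk (measurable_pi_apply _)) (MeasurableSet.of_discrete)
      have hs : ∀ b : Bool, shiftBy (n k) '' (X ∩ {y | y 0 = b}) ∩ (X ∩ {y | y 0 = b}) ⊆
          {y | y (-(n k : ℤ)) = b ∧ y 0 = b} := by
        intro b y hy
        rw [image_shiftBy] at hy
        refine ⟨?_, hy.2.2⟩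
        have := hy.1.2
        simpa [shiftBy] using this
      have hunion : mu {y | y (-(n k : ℤ)) = true ∧ y 0 = true} +
          mu {y | y (-(n k : ℤ)) = false ∧ y 0 = false} + mu {y | y (-(n k : ℤ)) ≠ y 0} = 1 := by
        rw [← measure_union _ (hE false false), ← measure_union', ← measure_univ (μ := mu)]
        · congr 1
          ext y
          simp only [Set.mem_union, Set.mem_ofPred_eq, Set.mem_univ, iff_true]
          cases y (-(n k : ℤ)) <;> cases y 0 <;> simp
        · rw [Set.disjoint_left]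
          intro y hy hy'
          simp only [Set.mem_union, Set.mem_ofPred_eq] at hy hy'
          rcases hy with hy | hy
          · exact hy' (hy.1.trans hy.2.symm)
          · exact hy' (hy.1.trans hy.2.symm)
        · exact (hE true true).union (hE false false)
        · rw [Set.disjoint_left]
          intro y hy hy'
          simp only [Set.mem_ofPred_eq] at hy hy'
          rw [hy.1] at hy'
          exact absurd hy'.1 (by decide)
      rw [← hunion]
      gcongr
      · exact hs true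
      · exact hs false
    rw [hsh] at h5
    refine le_trans (add_le_add_right h5 _) ?_
    rw [← add_assoc]
    gcongr
  rw [ENNReal.add_le_add_iff_left (by norm_num)] at hle
  have := ENNReal.inv_le_inv.mp hle
  norm_num at this

/-- points of the space are limits of shifts of the Toeplitz sequence -/
theorem mem_orbitClosure {x y : ℤ → Bool}
    (h : ∀ L : ℕ, ∃ k : ℤ, ∀ n : ℤ, |n| ≤ L → x (n + k) = y n) : y ∈ orbitClosure x := by
  choose k hk using h
  refine mem_closure_of_tendsto (f := fun L : ℕ => shiftBy (k L) x) (b := atTop) ?_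
    (Eventually.of_forall fun L => ⟨k L, rfl⟩)
  rw [tendsto_pi_nhds]
  intro n
  refine tendsto_const_nhds.congr' ?_
  filter_upwards [eventually_ge_atTop n.natAbs] with L hL
  exact (hk L n (by rw [Int.abs_eq_natAbs]; exact_mod_cast hL)).symm

theorem Phi_mem (z0 : ℤ_[2]) {z : ℤ_[2]} (hz : z ∈ Good)
    (e : ZMod 2) : Phi (z, e) ∈ orbitClosure (fun n => decide (F (z0 + n, 0) = 1)) := by
  apply mem_orbitClosure
  intro L
  obtain ⟨N, hN1, hN2⟩ := hz L
  obtain ⟨τ, hτ⟩ := exists_type N z e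
  obtain ⟨d, hd1, hd3, hdt⟩ : ∃ d : ℕ, 1 ≤ d ∧ d ≤ 3 ∧ t d = τ := by
    rcases z2_cases τ with h | h
    · exact ⟨3, by norm_num, le_rfl, by rw [t_three, h]⟩
    · exact ⟨1, le_rfl, by norm_num, by rw [t_one, h]⟩
  have haN : a N + 6 ≤ a (N + 1) := by rw [a_succ]; omega
  have hpow : 2 ^ a N * 4 ≤ 2 ^ a (N + 1) := by
    calc 2 ^ a N * 4 = 2 ^ (a N + 2) := by rw [pow_add]; norm_num
      _ ≤ 2 ^ a (N + 1) := Nat.pow_le_pow_right (by norm_num) (by omega)
  have hpow2 : 2 ^ a (N + 1) ≤ 2 ^ a (N + 2) :=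
    Nat.pow_le_pow_right (by norm_num) (a_mono (by omega))
  have hr := r_lt (a N) z
  have htar : r (a N) z + 2 ^ a N * d < 2 ^ a (N + 1) := by nlinarith
  -- the translate
  obtain ⟨k, hk⟩ : ∃ k : ℕ, r (a (N + 2)) (z0 + (k : ℤ_[2])) = r (a N) z + 2 ^ a N * d := by
    refine ⟨r (a N) z + 2 ^ a N * d + (2 ^ a (N + 2) - r (a (N + 2)) z0), ?_⟩
    rw [r_add_nat]
    have := r_lt (a (N + 2)) z0
    have h1 : r (a (N + 2)) z0 + (r (a N) z + 2 ^ a N * d + (2 ^ a (N + 2) - r (a (N + 2)) z0)) =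
      r (a N) z + 2 ^ a N * d + 2 ^ a (N + 2) := by omega
    rw [h1, Nat.add_mod_right, Nat.mod_eq_of_lt (by omega)]
  set w := z0 + (k : ℤ_[2]) with hw
  have hwN : r (a N) w = r (a N) z := by
    rw [← r_mod (a_mono (show N ≤ N + 2 by omega)) w, hk, Nat.add_mul_mod_self_left,
      Nat.mod_eq_of_lt hr]
  have hwN1 : r (a (N + 1)) w = r (a N) z + 2 ^ a N * d := by
    rw [← r_mod (a_mono (show N + 1 ≤ N + 2 by omega)) w, hk, Nat.mod_eq_of_lt htar]
  have hwZ : Zb (N + 1) w := by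
    unfold Zb; rw [hk]; exact htar
  have hwNZ : ∀ j, N ≤ j → j < N + 1 → ¬ Zb j w := by
    intro j hj hj'
    have : j = N := by omega
    subst this
    unfold Zb
    rw [hwN1]
    nlinarith
  have hdiv : r (a (N + 1)) w / 2 ^ a N = d := by
    rw [hwN1, Nat.add_mul_div_left _ _ (by positivity), Nat.div_eq_of_lt hr, zero_add]
  refine ⟨k, fun n hn => ?_⟩
  have hn' := abs_le.mp hn
  obtain ⟨q, hq⟩ := Int.eq_ofNat_of_zero_le (show 0 ≤ (r (a N) z : ℤ) + n by omega)
  have hq' : (q : ℤ) = r (a N) z + n := hq.symm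
  have hlt : q < 2 ^ a N := by
    have : (q : ℤ) < ((2 ^ a N : ℕ) : ℤ) := by
      rw [hq']
      have : ((r (a N) z + L : ℕ) : ℤ) < ((2 ^ a N : ℕ) : ℤ) := by exact_mod_cast hN2
      push_cast at this ⊢
      omega
    exact_mod_cast this
  have hpt : z0 + ((n + (k : ℤ) : ℤ) : ℤ_[2]) = w + n := by
    rw [hw]; push_cast; ring
  have key : F (w + n, 0) = F ((T ^ n) (z, e)) := by
    have hres : r (a N) (w + n) = r (a N) (z + n) := by
      have h1 := win le_rfl w n q (by rw [hwN]; exact hq') hlt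
      have h2 := win le_rfl z n q hq' hlt
      rw [h1, h2, Nat.div_eq_of_lt (r_lt _ _), Nat.div_eq_of_lt (r_lt _ _)]
    by_cases hlow : ∃ j < N, Zb j (z + n)
    · have h3 : (T ^ n) (z, e) = (z + n, ((T ^ n) (z, e)).2) := by
        ext
        · exact T_zpow_fst n (z, e)
        · rfl
      rw [h3]
      exact (F_low hres.symm hlow _ _).symm
    · push Not at hlow
      rw [hτ n q hq' hlt hlow, F_type (show N ≤ N + 1 by omega) hwZ hwNZ n q
        (by rw [hwN]; exact hq') hlt (fun j hj hc => hlow j hj ((Zb_low hj hres).mp hc)) 0,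
        hdiv, hdt]
  change decide (F (z0 + ((n + (k : ℤ) : ℤ) : ℤ_[2]), 0) = 1) = decide (F ((T ^ n) (z, e)) = 1)
  rw [hpt, key]

theorem mu_orbitClosure (z0 : ℤ_[2]) :
    mu (orbitClosure (fun n => decide (F (z0 + n, 0) = 1)))ᶜ = 0 := by
  have hc : MeasurableSet (orbitClosure (fun n => decide (F (z0 + n, 0) = 1)))ᶜ :=
    isClosed_closure.measurableSet.compl
  rw [← mp_Phi.measure_preimage hc.nullMeasurableSet, m_apply (measurable_Phi hc)]
  have h : ∀ e, P (sec (Phi ⁻¹' (orbitClosure (fun n => decide (F (z0 + n, 0) = 1)))ᶜ) e) = 0 := by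
    intro e
    refine measure_mono_null ?_ P_Good
    intro z hz hz'
    exact hz (Phi_mem z0 hz' e)
  rw [h, h]; simp

theorem toeplitz_pos {z0 : ℤ_[2]} (hz0 : ∀ n : ℤ, ∃ i, Zb i (z0 + n)) (n : ℤ) :
    ∃ p : ℤ, 1 ≤ p ∧ ∀ k : ℤ, decide (F (z0 + ((n + k * p : ℤ) : ℤ_[2]), 0) = 1) =
      decide (F (z0 + n, 0) = 1) := by
  obtain ⟨i, hi⟩ := hz0 n
  refine ⟨2 ^ a (i + 1), one_le_pow₀ (by norm_num), fun k => ?_⟩
  have h1 : r (a (i + 1)) (z0 + ((n + k * 2 ^ a (i + 1) : ℤ) : ℤ_[2])) = r (a (i + 1)) (z0 + n) := by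
    unfold r
    congr 1
    rw [map_add, map_add, map_intCast, map_intCast]
    push_cast
    have : (2 : ZMod (2 ^ a (i + 1))) ^ a (i + 1) = 0 := by
      have := ZMod.natCast_self (2 ^ a (i + 1))
      push_cast at this
      exact this
    rw [this]; ring
  rw [F_low h1.symm ⟨i, by omega, hi⟩ 0 0]

theorem result : ∃ x : ℤ → Bool, IsToeplitz x ∧
    ∃ μ : Measure (ℤ → Bool), IsProbabilityMeasure μ ∧ μ (orbitClosure x)ᶜ = 0 ∧
      Ergodic (shiftBy 1) μ ∧ PartiallyRigid (orbitClosure x) μ ∧ ¬ Rigid (orbitClosure x) μ := by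
  obtain ⟨z0, hz0⟩ := exists_star
  have hX := mu_orbitClosure z0
  refine ⟨fun n => decide (F (z0 + n, 0) = 1), ⟨?_, toeplitz_pos hz0⟩, mu, inferInstance, hX,
    ergodic_mu, partiallyRigid_mu _, not_rigid isClosed_closure.measurableSet hX⟩
  rintro ⟨p, hp, hper⟩
  obtain ⟨j, rfl⟩ := Int.eq_ofNat_of_zero_le (show 0 ≤ p by omega)
  have h1 := mu_ne (n := j) (by exact_mod_cast hp)
  have h2 : mu {y | y 0 ≠ y j} = 0 := by
    refine measure_mono_null ?_ hX
    intro y hy hy'
    apply hy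
    have hcl : IsClosed {y : ℤ → Bool | y 0 = y j} :=
      isClosed_eq (continuous_apply _) (continuous_apply _)
    have hsub : orbitClosure (fun n => decide (F (z0 + n, 0) = 1)) ⊆ {y : ℤ → Bool | y 0 = y j} := by
      apply closure_minimal _ hcl
      rintro _ ⟨k, rfl⟩
      have := hper k
      simp only [Set.mem_ofPred_eq, shiftBy, zero_add]
      rw [add_comm (j : ℤ) k]
      exact this.symm
    exact hsub hy'
  rw [h2, zero_add] at h1
  have := ENNReal.inv_le_inv.mp h1
  norm_num at this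

end Pool.Agent.Results.MP_6420b1_an.ToeplitzPR
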